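import Pool.Agent.E8helper78.FL.Stm

/-!
Project FL, part EX: every vector of the positive cone has a compatible expansion.
-/

set_option autoImplicit false

open scoped RealInnerProductSpace NNReal

namespace Pool.Agent.E8helper54.FL

open Pool.Agent.E8helper78.FL

section

variable {V : Type} [NormedAddCommGroup V] [InnerProductSpace ℝ V]

theorem cone_mono {S T : Set V} (h : S ⊆ T) : cone S ≤ cone T := Submodule.span_mono h

theorem cone_nonneg {S : Set V} (f : V →ₗ[ℝ] ℝ) (h : ∀ a ∈ S, 0 ≤ f a) {x : V}
    (hx : x ∈ cone S) : 0 ≤ f x := by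
  unfold cone at hx
  induction hx using Submodule.span_induction with
  | mem a ha => exact h a ha
  | zero => rw [map_zero]
  | add x y _ _ hx hy => rw [map_add]; exact add_nonneg hx hy
  | smul c x _ hx =>
    rw [NNReal.smul_def, map_smul, smul_eq_mul]
    exact mul_nonneg c.2 hx

/-- `E x x = |x|² / 2` -/
theorem E_self [FiniteDimensional ℝ V] {c : V ≃ₗᵢ[ℝ] V} {E : V →ₗ[ℝ] V →ₗ[ℝ] ℝ} (hE : IsE c E)
    (x : V) : E x x = ‖x‖ ^ 2 / 2 := by
  let T : V →ₗ[ℝ] V := LinearMap.id - (c.toLinearEquiv : V →ₗ[ℝ] V)
  have hT : ∀ u, T u = u - c u := fun u => rfl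
  have hinj : Function.Injective T := by
    rw [← LinearMap.ker_eq_bot, LinearMap.ker_eq_bot']
    intro u hu
    have h1 := hE u u
    rw [← hT, hu, map_zero, LinearMap.zero_apply] at h1
    exact inner_self_eq_zero.1 h1.symm
  obtain ⟨u, rfl⟩ := (LinearMap.injective_iff_surjective.1 hinj) x
  rw [hT, hE, ← real_inner_self_eq_norm_sq, inner_sub_sub_self, inner_sub_right,
    LinearIsometryEquiv.inner_map_map, real_inner_comm u (c u)]
  ring

end

theorem t_EX (h1 : S_SC) (h2 : S_NCL) : S_EX := by
  intro V _ _ _ Φ c E l r hΦ hE hc hR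
  have hhalf : ∀ a ∈ Φ, E a a = 1 / 2 := by
    intro a ha
    rw [E_self hE, hΦ.unit a ha]
    norm_num
  have hrΦ : ∀ i, r i ∈ Φ := fun i => (hR.mem i).1
  -- elements which are not the leaving root stay
  have hstay : ∀ (i : ℕ) (a : V), a ∈ pos Φ (l i) → a ≠ r i → a ∈ pos Φ (l (i + 1)) := by
    intro i a ha hne
    rw [hR.next]
    exact Or.inl ⟨ha, hne⟩
  -- fact (A)
  have hA : ∀ (j k : ℕ), j ≤ k → ∀ g : V, g ∈ pos Φ (l k) → g ∉ pos Φ (l j) →
      ∃ j', j ≤ j' ∧ j' < k ∧ g = -r j' := by
    intro j k hjk
    induction k, hjk using Nat.le_induction with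
    | base => exact fun g h h' => absurd h h'
    | succ k hk ih =>
      intro g hg hgj
      by_cases hgk : g ∈ pos Φ (l k)
      · obtain ⟨j', h3, h4, h5⟩ := ih g hgk hgj
        exact ⟨j', h3, h4.trans (Nat.lt_succ_self k), h5⟩
      · rw [hR.next] at hg
        rcases hg with hg | hg
        · exact absurd hg.1 hgk
        · exact ⟨k, hk, Nat.lt_succ_self k, hg⟩
  have main : ∀ n : ℕ, ∀ M : Submodule ℝ V, Module.finrank ℝ M = n → NCs Φ E M →
      ∀ i, ∀ x ∈ cone {a | a ∈ pos Φ (l i) ∧ a ∈ M},
      ∃ (C : Finset V) (a : V → ℝ), Exp E {a | a ∈ pos Φ (l i) ∧ a ∈ M} x C a := by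
    intro n
    induction n using Nat.strong_induction_on with
    | _ n ih =>
      intro M hMn hM i x hx
      by_cases hx0 : x = 0
      · refine ⟨∅, fun _ => 1, ⟨by simp, by simp, by simp, by simp [hx0]⟩⟩
      -- the time
      have hk : ∃ k, i ≤ k ∧
          (∀ j, i ≤ j → j ≤ k → x ∈ cone {a | a ∈ pos Φ (l j) ∧ a ∈ M}) ∧ r k ∈ M ∧
          0 < E x (r k) := by
        by_contra hno
        push Not at hno
        have hall : ∀ k, i ≤ k →
            ∀ j, i ≤ j → j ≤ k → x ∈ cone {a | a ∈ pos Φ (l j) ∧ a ∈ M} := by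
          intro k hk
          induction k, hk using Nat.le_induction with
          | base =>
            intro j h3 h4
            have : j = i := le_antisymm h4 h3
            rw [this]
            exact hx
          | succ k hk ihk =>
            intro j h3 h4
            rcases Nat.lt_or_ge k j with h5 | h5
            · have hj : j = k + 1 := by omega
              subst hj
              have hxk := ihk k hk le_rfl
              by_cases hrM : r k ∈ M
              · have h6 := hno k hk ihk hrM
                have h7 := (h1 V Φ c E l r hΦ hE hc hR M hM k hrM x hxk).1 h6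
                refine cone_mono ?_ h7
                rintro a ⟨⟨h8, h9⟩, h10⟩
                exact ⟨hstay k a h8 h9, h10⟩
              · refine cone_mono ?_ hxk
                rintro a ⟨h8, h10⟩
                exact ⟨hstay k a h8 (fun h => hrM (h ▸ h10)), h10⟩
            · exact ihk j h3 h5
        obtain ⟨k, hk, hk'⟩ := hR.term x hx0 i
        exact hk' (cone_mono (fun a ha => ha.1) (hall k hk k hk le_rfl))
      obtain ⟨k, hik, hxk, hrM, hEx⟩ := hk
      obtain ⟨t, ht, y, hy, hxy⟩ :=
        (h1 V Φ c E l r hΦ hE hc hR M hM k hrM x (hxk k hik le_rfl)).2 hEx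
      have h3 := (h2 V Φ c E hΦ hE hc).2 M hM (r k) (hrΦ k) hrM
      obtain ⟨D, b, hD⟩ := ih _ (by omega : Module.finrank ℝ
        (M ⊓ LinearMap.ker (E.flip (r k)) : Submodule ℝ V) < n) _ rfl h3.2.1 k y hy
      have hker : ∀ d ∈ D, E d (r k) = 0 := by
        intro d hd
        have := LinearMap.mem_ker.1 (hD.mem d hd).2.2
        rw [LinearMap.flip_apply] at this
        exact this
      have hrD : r k ∉ D := by
        intro h
        have h4 := hker _ h
        rw [hhalf _ (hrΦ k)] at h4
        norm_num at h4
      classical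
      set C' : Finset V := insert (r k) D with hC'
      set a' : V → ℝ := Function.update b (r k) t with ha'
      have hak : a' (r k) = t := by rw [ha', Function.update_self]
      have haD : ∀ d ∈ D, a' d = b d := by
        intro d hd
        rw [ha', Function.update_of_ne]
        rintro rfl
        exact hrD hd
      have hmem : ∀ g ∈ C', g ∈ pos Φ (l k) ∧ g ∈ M := by
        intro g hg
        rw [hC', Finset.mem_insert] at hg
        rcases hg with rfl | hg
        · exact ⟨hR.mem k, hrM⟩
        · exact ⟨(hD.mem g hg).1, (hD.mem g hg).2.1⟩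
      have hpos : ∀ g ∈ C', 0 < a' g := by
        intro g hg
        rw [hC', Finset.mem_insert] at hg
        rcases hg with rfl | hg
        · rw [hak]; exact ht
        · rw [haD g hg]; exact hD.pos g hg
      have hcomp : ∀ g ∈ C', ∀ g' ∈ C', 0 ≤ E g g' := by
        intro g hg g' hg'
        have hg'' := (hmem g' hg').1
        rw [hC', Finset.mem_insert] at hg hg'
        rcases hg with rfl | hg
        · exact hR.nonneg k g' hg''
        · rcases hg' with rfl | hg'
          · rw [hker g hg]
          · exact hD.comp g hg g' hg'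
      have hsum : x = ∑ g ∈ C', a' g • g := by
        rw [hC', Finset.sum_insert hrD, hak, hxy]
        congr 1
        rw [hD.sum]
        exact Finset.sum_congr rfl fun d hd => by rw [haD d hd]
      refine ⟨C', a', ⟨fun g hg => ⟨?_, (hmem g hg).2⟩, hpos, hcomp, hsum⟩⟩
      by_contra hgi
      -- the maximal time
      let J : Finset ℕ := (Finset.range k).filter fun j => i ≤ j ∧ -r j ∈ C'
      have hJ : J.Nonempty := by
        obtain ⟨j', h4, h5, h6⟩ := hA i k hik g (hmem g hg).1 hgi
        refine ⟨j', ?_⟩
        rw [Finset.mem_filter, Finset.mem_range]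
        exact ⟨h5, h4, h6 ▸ hg⟩
      obtain ⟨j, hjJ, hjmax⟩ := J.exists_max_image id hJ
      rw [Finset.mem_filter, Finset.mem_range] at hjJ
      obtain ⟨hjk, hij, hβ⟩ := hjJ
      have hother : ∀ g' ∈ C', g' ≠ -r j → g' ∈ pos Φ (l j) := by
        intro g' hg' hne
        by_contra hc'
        obtain ⟨j', h4, h5, h6⟩ := hA j k hjk.le g' (hmem g' hg').1 hc'
        have h7 : j' ∈ J := by
          rw [Finset.mem_filter, Finset.mem_range]
          exact ⟨h5, hij.trans h4, h6 ▸ hg'⟩
        have h8 := hjmax j' h7
        simp only [id] at h8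
        have h9 : j' = j := le_antisymm h8 h4
        rw [h9] at h6
        exact hne h6
      have hzero : ∀ g' ∈ C', g' ≠ -r j → E (-r j) g' = 0 := by
        intro g' hg' hne
        have h4 := hcomp _ hβ g' hg'
        have h5 := hR.nonneg j g' (hother g' hg' hne)
        rw [map_neg, LinearMap.neg_apply] at h4 ⊢
        linarith
      have hEβ : E (-r j) x = a' (-r j) * (1 / 2) := by
        rw [hsum, map_sum, Finset.sum_eq_single_of_mem _ hβ]
        · have h6 : E (-r j) (-r j) = 1 / 2 := by
            rw [map_neg, map_neg, LinearMap.neg_apply, neg_neg, hhalf _ (hrΦ j)]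
          rw [map_smul, smul_eq_mul, h6]
        · intro g' hg' hne
          rw [map_smul, hzero g' hg' hne, smul_zero]
      have h4 : 0 ≤ E (r j) x := cone_nonneg (E (r j)) (fun a ha => hR.nonneg j a ha.1)
        (hxk j hij hjk.le)
      have h5 := hpos _ hβ
      rw [map_neg, LinearMap.neg_apply] at hEβ
      linarith
  intro M hM i x hx
  exact main _ M rfl hM i x hx

end Pool.Agent.E8helper54.FL
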